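import Pool.Agent.Helper93.SR.Fin

/-
Reserve of MP_b8862a_ag (replaced by the stronger ToricRankRational). Claim text:

Proves: For K algebraically closed of char. 0 and a set R of pairs (r,D), 0<4r<D, these are equivalent: R has no (s d^(k-1), d^k), k>=3 odd, d even; every strong symplectic Mumford-Tate pair (G,V) of weights 0,1 over K, V an orthogonal sum of pairwise non-isomorphic irreducible Γ-stable W_j on each of which some u in G is 1+N, N^2=0, (rank N, dim W_j) in R, is the group of all similitudes preserving the W_j.
Definitions: IsStrongMTPair Γ J G π: G in GL_m(K) closed, of similitudes of J (J^T=-J, det J≠0), normalised by a group Γ of semilinear automorphisms of K^m, and lying in each closed H that contains the conjugates under G and Γ of one cocharacter tπ+(1-π), π^2=π, of G. IsStable: Γ preserves W_j. IsSplit: K^m is the direct sum of the W_j, orthogonal for J, G-stable, irreducible, no nonzero intertwiner W_i->W_j. IsQuadraticOn u W r: (u-1)^2=0 on W, dim (u-1)W=r. IsFull: G contains all similitudes preserving the W_j.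
Relation: Partial. Not formalised: Faltings, Pink 1998 (End A=Z: for infinitely many l, G_l^0 comes from such a pair over Q), Grothendieck (rank N=toric rank r). They give Q1 for h^1(A), dim A=g, End A=Z, if some place has toric rank 0<r<g/2, unless 2g=d^k, k>=3 odd, d even, d^(k-1)|r; products. New in Pink's open dimensions (2g=20: r=4; 64: r<16; 252: r<63). Known: r=1 (Hall), Serre, Pink. Exceptions: tensor powers of Sp_d; 1/4 is sharp (spin). Near: Zarhin, Premet-Suprunenko.
-/

/-!
Strong symplectic Mumford-Tate pairs of weights zero and one containing quadratic unipotent
elements of rank less than a quarter of the dimension: the pairs (rank, dimension) which force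
the group to be as large as possible.
-/

open Module MTPairs

namespace Pool.Agent.Results.MP_b8862a_ag.SmallToricRank

/-- Let `R` be a set of pairs `(r, D)` of natural numbers with `0 < r` and `4 * r < D`. The
following are equivalent: every strong symplectic Mumford-Tate pair of weights `0` and `1` (the
group is generated by the conjugates of one cocharacter under the group and under a group `Γ`
of semilinear automorphisms normalising it), whose standard representation is an orthogonal sum
of pairwise non isomorphic irreducible summands stable under `Γ`, on each of which some element
of the group is unipotent of the form `1 + N` with `N² = 0` and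
`(rank of N, dimension of the summand)` in `R`, is the full group of similitudes preserving the
summands; `R` contains no pair `(s * d ^ (k - 1), d ^ k)` with `d` even and `k ≥ 3` odd. -/
theorem result {K : Type*} [Field K] [IsAlgClosed K] [CharZero K] (R : Set (ℕ × ℕ))
    (hR : ∀ r D, (r, D) ∈ R → 0 < r ∧ 4 * r < D) :
    (∀ (m ι : Type) [Fintype m] [DecidableEq m] [Fintype ι] [DecidableEq ι]
      (Γ : Subgroup (Equiv.Perm (m → K))) (J : Matrix m m K)
      (G : Subgroup (Matrix.GeneralLinearGroup m K)) (π : Matrix m m K)
      (W : ι → Submodule K (m → K)), IsStrongMTPair Γ J G π → IsSplit J G W → IsStable Γ W →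
      (∀ j, ∃ u ∈ G, ∃ r, IsQuadraticOn u (W j) r ∧ (r, finrank K (W j)) ∈ R) →
      IsFull J G W) ↔
    ∀ d k s, Even d → Odd k → 3 ≤ k → (s * d ^ (k - 1), d ^ k) ∉ R :=
  MTP.criterion R hR

end Pool.Agent.Results.MP_b8862a_ag.SmallToricRank
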