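import Pool.Agent.Helper93.SR.Plug

/-!
Strong symplectic Mumford-Tate pairs of weights zero and one in which the symmetries fixing a
quadratic unipotent element are dense: the complete list of the pairs (rank, dimension) which
force the group to be as large as possible.
-/

open Module MTPairs

namespace Pool.Agent.Helper93.Reserve.ToricRankRational

/-- Let `R` be a set of pairs `(r, D)` of natural numbers with `0 < r`. The following are
equivalent: every strong symplectic Mumford-Tate pair of weights `0` and `1` (the group `G` is
generated by the conjugates of one cocharacter under `G` and under a group `Γ` of semilinear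
automorphisms normalising `G`), whose standard representation is an orthogonal sum of pairwise
non isomorphic irreducible summands `W j` stable under `Γ`, and such that for every `j` there is
`(r, dim (W j))` in `R` for which the elements of `Γ` commuting with an element of `G` which is
unipotent of the form `1 + N`, `N² = 0`, rank of `N` equal to `r`, on `W j`, are dense in `Γ`, is
the full group of similitudes preserving the summands; `R` contains neither
`(C(2n - 2, n - 1), C(2n, n))` with `n ≥ 3` odd, nor `(2 ^ (n - 2), 2 ^ n)` or
`(2 ^ (n - 1), 2 ^ n)` with `n ≥ 5` congruent to `1` or `2` modulo `4`. -/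
theorem result {K : Type*} [Field K] [IsAlgClosed K] [CharZero K] (R : Set (ℕ × ℕ))
    (hR : ∀ r D, (r, D) ∈ R → 0 < r) :
    (∀ (m ι : Type) [Fintype m] [DecidableEq m] [Fintype ι] [DecidableEq ι]
      (Γ : Subgroup (Equiv.Perm (m → K))) (J : Matrix m m K)
      (G : Subgroup (Matrix.GeneralLinearGroup m K)) (π : Matrix m m K)
      (W : ι → Submodule K (m → K)), IsStrongMTPair Γ J G π → IsSplit J G W → IsStable Γ W →
      (∀ j, ∃ r, DenseQuad Γ G (W j) r ∧ (r, finrank K (W j)) ∈ R) → IsFull J G W) ↔
    (∀ n, Odd n → 3 ≤ n → ((2 * n - 2).choose (n - 1), (2 * n).choose n) ∉ R) ∧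
    (∀ n, n % 4 = 1 ∨ n % 4 = 2 → 5 ≤ n →
      (2 ^ (n - 2), 2 ^ n) ∉ R ∧ (2 ^ (n - 1), 2 ^ n) ∉ R) :=
  MTP.rational R hR

end Pool.Agent.Helper93.Reserve.ToricRankRational
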